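import Mathlib
import Pool.Agent.Work.MP_6da7fa_al.Tca
import Pool.Agent.Work.MP_6da7fa_al.EG.Main

set_option autoImplicit false

open Pool.Agent.Work.MP_6da7fa_al

namespace Pool.Agent.Results.MP_6da7fa_al.HookPartDFinite

/-- The `k`-hook part of `M n`: the span of the vectors `v` such that for some colouring `c` of the
letters with `k` even colours (`Sum.inl`) and `k` odd colours (`Sum.inr`) every transposition of two
letters of the same colour maps `v` to `v` (even colour) or to `-v` (odd colour). -/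
def hookPart {M : ℕ → Type} [∀ n, AddCommGroup (M n)] [∀ n, Module ℂ (M n)] (s : SymSeq M)
    (k n : ℕ) : Submodule ℂ (M n) :=
  Submodule.span ℂ {v : M n | ∃ c : Fin n → Fin k ⊕ Fin k, ∀ x y, x ≠ y → c x = c y →
    s.act n (Equiv.swap x y) v = (if (c x).isRight = true then (-1 : ℂ) else 1) • v}

theorem hookPart_eq {M : ℕ → Type} [∀ n, AddCommGroup (M n)] [∀ n, Module ℂ (M n)]
    (s : SymSeq M) (k n : ℕ) :
    hookPart s k n = ⨆ c : Fin n → EG.ZZ k, EG.SI (EG.par k) (EG.rp s n) c := by
  have key : ∀ (v : M n) (c : Fin n → Fin k ⊕ Fin k),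
      v ∈ EG.SI (EG.par k) (EG.rp s n) c ↔ ∀ x y, x ≠ y → c x = c y →
        s.act n (Equiv.swap x y) v = (if (c x).isRight = true then (-1 : ℂ) else 1) • v := by
    intro v c
    rw [EG.conSw (Fin n) (EG.ZZ k) (M n) (EG.par k) (EG.rp s n) c v]
    have hp : ∀ z : Fin k ⊕ Fin k, EG.par k z = z.isRight := by
      rintro (z | z) <;> rfl
    simp only [hp]
    rfl
  apply le_antisymm
  · unfold hookPart
    rw [Submodule.span_le]
    rintro v ⟨c, hc⟩
    exact Submodule.mem_iSup_of_mem c ((key v c).mpr hc)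
  · refine iSup_le fun c v hv => ?_
    exact Submodule.subset_span ⟨c, (key v c).mp hv⟩

/-- The hook parts of a module.  Let `A` be a finitely generated tca, `M` a finitely generated
`A`-module with finite-dimensional components, and `k` a natural number.  There is a submodule `N`
of `M` such that every `M n` is the direct sum of its `k`-hook part and `N n`; it vanishes in all
degrees below `(k + 1) ^ 2`, and the Hilbert series of `M / N` is D-finite. -/
theorem result (A : ℕ → Type) [∀ n, AddCommGroup (A n)] [∀ n, Module ℂ (A n)] (R : TCA A)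
    (hA : R.FG)
    (M : ℕ → Type) [∀ n, AddCommGroup (M n)] [∀ n, Module ℂ (M n)] (S : TCAModule R M)
    (hM : S.FG) (hfd : ∀ n, FiniteDimensional ℂ (M n)) (k : ℕ) :
    ∃ N : SubMod S, (∀ n, IsCompl (hookPart S.seq k n) (N.carrier n)) ∧
      (∀ n, n < (k + 1) ^ 2 → N.carrier n = ⊥) ∧
      DFinite (hilb (fun n => M n ⧸ N.carrier n)) := by
  obtain ⟨N, hN⟩ := EG.conTb A R M S k
  refine ⟨N, fun n => ?_, fun n hn => ?_, ?_⟩
  · rw [hookPart_eq, hN n]
    exact (EG.conTa (Fin n) (M n) (EG.rp S.seq n) k).1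
  · rw [hN n]
    exact EG.prTd (EG.prIr EG.prRe) EG.conSw EG.conPp EG.conHt EG.conDe EG.conMl EG.conCm EG.prBx
      EG.conTa (Fin n) (M n) (EG.rp S.seq n) k (by rwa [Fintype.card_fin])
  · exact EG.conCore A R _ (S.quot N) hA (quot_fg hM N) (fun n => inferInstance) k
      (EG.prTc EG.conTa A R M S k N hN).1

end Pool.Agent.Results.MP_6da7fa_al.HookPartDFinite
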