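import Mathlib
import Pool.Agent.Work.MP_6da7fa_al.Tca
import Pool.Agent.Work.MP_6da7fa_al.MB.Main

set_option autoImplicit false

open Pool.Agent.Work.MP_6da7fa_al

namespace Pool.Agent.Results.MP_6da7fa_al.MonomialBasisDFinite

/-- Q1 for modules with a monomial basis.  `A` is a tca generated by homogeneous elements
`x i ∈ A (d i)` (of any degrees), `M` a finitely generated `A`-module with finite-dimensional
components, `b n` a basis of `M n`, such that every permutation maps each basis vector to a multiple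
of a basis vector, and every `x i` maps each basis vector to zero or to a multiple of a basis vector.
Then the Hilbert series of `M` is D-finite. -/
theorem result (A : ℕ → Type) [∀ n, AddCommGroup (A n)] [∀ n, Module ℂ (A n)] (R : TCA A)
    (M : ℕ → Type) [∀ n, AddCommGroup (M n)] [∀ n, Module ℂ (M n)] (S : TCAModule R M)
    (r : ℕ) (d : Fin r → ℕ) (x : ∀ i, A (d i))
    (hx : ∀ C : (n : ℕ) → Submodule ℂ (A n), (∀ i, x i ∈ C (d i)) → R.one ∈ C 0 →
      (∀ n σ, ∀ a ∈ C n, R.seq.act n σ a ∈ C n) →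
      (∀ {i j k : ℕ} (h : i + j = k), ∀ a ∈ C i, ∀ c ∈ C j, R.mul.app h a c ∈ C k) →
      ∀ n, C n = ⊤)
    (hM : S.FG) (hfd : ∀ n, FiniteDimensional ℂ (M n))
    (β : ℕ → Type) (b : ∀ n, Module.Basis (β n) ℂ (M n))
    (hperm : ∀ (n : ℕ) (σ : Equiv.Perm (Fin n)) (i : β n), ∃ (j : β n) (c : ℂ),
      S.seq.act n σ (b n i) = c • b n j)
    (hmul : ∀ (i : Fin r) {n m : ℕ} (h : d i + n = m) (j : β n),
      S.smul.app h (x i) (b n j) = 0 ∨
        ∃ (j' : β m) (c : ℂ), S.smul.app h (x i) (b n j) = c • b m j') :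
    DFinite (hilb M) :=
  MB.conFin A R M S r d x β b hx hM hfd ⟨hperm, hmul⟩

end Pool.Agent.Results.MP_6da7fa_al.MonomialBasisDFinite
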