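import Mathlib
import Pool.Agent.Work.MP_6da7fa_al.Tca

set_option autoImplicit false

open scoped PowerSeries
open Pool.Agent.Work.MP_6da7fa_al

namespace Pool.Agent.Results.MP_6da7fa_al.NonNoetherianGivesNonDFinite

/-- If some finitely generated module `M` (with finite-dimensional components) over a finitely
generated tca `A` has a submodule that is not finitely generated, then Q1 has a negative answer:
uncountably many non-D-finite power series occur as Hilbert series of finitely generated
`A`-modules with finite-dimensional components. -/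
theorem result (A : ℕ → Type) [∀ n, AddCommGroup (A n)] [∀ n, Module ℂ (A n)]
    (R : TCA A) (_hA : R.FG)
    (M : ℕ → Type) [∀ n, AddCommGroup (M n)] [∀ n, Module ℂ (M n)] (S : TCAModule R M)
    (hM : S.FG) (hfd : ∀ n, FiniteDimensional ℂ (M n)) (hN : ∃ N : SubMod S, ¬ N.FG) :
    ¬ {H : ℂ⟦X⟧ | ¬ DFinite H ∧
        ∃ (Q : ℕ → Type) (_ : ∀ n, AddCommGroup (Q n)) (_ : ∀ n, Module ℂ (Q n))
          (T : TCAModule R Q), T.FG ∧ (∀ n, FiniteDimensional ℂ (Q n)) ∧ hilb Q = H}.Countable := by
  obtain ⟨N, hN⟩ := hN
  intro hcount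
  refine uncountable_not_dfinite hfd N hN (hcount.mono ?_)
  rintro H ⟨hH, N', rfl⟩
  exact ⟨hH, fun n => M n ⧸ N'.carrier n, fun n => inferInstance, fun n => inferInstance,
    S.quot N', quot_fg hM N', fun n => inferInstance, rfl⟩

end Pool.Agent.Results.MP_6da7fa_al.NonNoetherianGivesNonDFinite
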