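import Mathlib
import Pool.Agent.Work.MP_6da7fa_al.Tca
import Pool.Agent.Work.MP_6da7fa_al.EG.MainE

set_option autoImplicit false

open Pool.Agent.Work.MP_6da7fa_al

namespace Pool.Agent.Results.MP_6da7fa_al.SlowGrowthDFinite

/-- Q1 for modules of slow growth.  `A` is a tca generated by a finite set `s` of homogeneous
elements of degrees at most `e` (no proper sub-tca contains `s`), `M` a finitely generated
`A`-module with finite-dimensional components, and `c` a real number with `2 e c < 1`.  If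
`dim M_n ≤ n ^ (c n)` for all large `n`, then the Hilbert series of `M` is D-finite. -/
theorem result (A : ℕ → Type) [∀ n, AddCommGroup (A n)] [∀ n, Module ℂ (A n)] (R : TCA A)
    (e : ℕ) (s : Finset (Σ n, A n)) (hse : ∀ x ∈ s, x.1 ≤ e)
    (hs : ∀ B : (n : ℕ) → Submodule ℂ (A n), (∀ x ∈ s, x.2 ∈ B x.1) →
      R.one ∈ B 0 → (∀ n σ, ∀ a ∈ B n, R.seq.act n σ a ∈ B n) →
      (∀ {i j k : ℕ} (h : i + j = k), ∀ a ∈ B i, ∀ b ∈ B j, R.mul.app h a b ∈ B k) →
      ∀ n, B n = ⊤)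
    (M : ℕ → Type) [∀ n, AddCommGroup (M n)] [∀ n, Module ℂ (M n)] (S : TCAModule R M)
    (hM : S.FG) (hfd : ∀ n, FiniteDimensional ℂ (M n)) (c : ℝ) (hc : 2 * e * c < 1)
    (hgrow : ∃ n₀ : ℕ, ∀ n : ℕ, n₀ ≤ n →
      (Module.finrank ℂ (M n) : ℝ) ≤ (n : ℝ) ^ (c * n)) :
    DFinite (hilb M) :=
  EG.eg_main S e ⟨s, hse, hs⟩ hM hfd c hc hgrow

end Pool.Agent.Results.MP_6da7fa_al.SlowGrowthDFinite
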